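import Pool.Agent.Helper50_TP2.Rules2

/-!
# MP_ce3ba7_al, characteristic 2: Lemma Q for the ideal of commutators (helper50)
-/

set_option autoImplicit false
set_option linter.unusedSectionVars false
set_option linter.unusedVariables false

namespace Pool.Agent.TP

namespace H50

open H51

section
variable {F : Type} [Field F] {S : Set (MonoidAlgebra F (FreeMagma ℕ))}
variable {B : Type} [NonUnitalNonAssocRing B] [Module F B] [IsScalarTower F B B]
  [SMulCommClass F B B] {x : ℕ → B}

lemma cm_map (Φ : B →ₙₐ[F] B) (a b : B) : Φ (cm a b) = cm (Φ a) (Φ b) := by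
  unfold cm; rw [map_add, map_mul, map_mul]

lemma hh_map (Φ : B →ₙₐ[F] B) (a b c : B) : Φ (hh a b c) = hh (Φ a) (Φ b) (Φ c) := by
  unfold hh; simp only [map_add, map_mul, cm_map]

lemma hh_add_left (a a' b c : B) : hh (a + a') b c = hh a b c + hh a' b c := by
  unfold hh cm; simp only [add_mul, mul_add]; abel

lemma hh_smul_left (r : F) (a b c : B) : hh (r • a) b c = r • hh a b c := by
  unfold hh cm
  simp only [smul_mul_assoc, mul_smul_comm, ← smul_add]

lemma hh_swap (a b c : B) : hh a b c = hh b a c := by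
  unfold hh; rw [cm_comm a b]; abel

lemma hh_swap' (a b c : B) : hh a b c = hh a c b := by
  unfold hh; rw [cm_comm b c]; abel

lemma cm_smul_left (r : F) (a b : B) : cm (r • a) b = r • cm a b := by
  unfold cm; rw [smul_mul_assoc, mul_smul_comm, smul_add]

/-- the ideal generated by the commutators -/
def CI (F : Type) [Field F] (B : Type) [NonUnitalNonAssocRing B] [Module F B] : Submodule F B :=
  Submodule.span F ({c | ∃ a b : B, c = cm a b} ∪ {c | ∃ a b d : B, c = cm a b * d})

lemma cm_mem (a b : B) : cm a b ∈ CI F B := Submodule.subset_span (Or.inl ⟨a, b, rfl⟩)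

lemma cm_mul_mem (a b d : B) : cm a b * d ∈ CI F B := Submodule.subset_span (Or.inr ⟨a, b, d, rfl⟩)

lemma CI_right (hA : IsAlt B) (h2 : ∀ a : B, a + a = 0) (d a : B) (ha : a ∈ CI F B) :
    a * d ∈ CI F B := by
  induction ha using Submodule.span_induction with
  | mem a ha =>
    rcases ha with ⟨b, c, rfl⟩ | ⟨b, c, e, rfl⟩
    · exact cm_mul_mem _ _ _
    · have e1 : cm b c * e * d = cm b c * (e * d) + asc (cm b c) e d := by
        rw [asc2 h2]; (rw [eq2 h2]; abel_nf; try simp only [two_zsmul2 h2, four_zsmul2 h2, three_zsmul2 h2,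
    two_nsmul2 h2, add_zero, zero_add])
      have e2 : asc (cm b c) e d = cm (EE e d b) c + cm b (EE e d c) + cm (cm e d) (cm b c) := by
        have e3 : EE e d (cm b c) = cm (EE e d b) c + cm b (EE e d c) := by
          have : EE e d (cm b c) = EE e d (b * c) + EE e d (c * b) := by
            unfold EE
            rw [show cm b c = b * c + c * b from rfl, cm_add_right, asc_add3]
            abel
          rw [this, EE_mul hA h2, EE_mul hA h2]
          unfold cm
          abel
        rw [← e3, tcyc hA]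
        unfold EE
        (rw [eq2 h2]; abel_nf; try simp only [two_zsmul2 h2, four_zsmul2 h2, three_zsmul2 h2,
    two_nsmul2 h2, add_zero, zero_add])
      rw [e1, e2]
      exact Submodule.add_mem _ (cm_mul_mem _ _ _)
        (Submodule.add_mem _ (Submodule.add_mem _ (cm_mem _ _) (cm_mem _ _)) (cm_mem _ _))
  | zero => rw [zero_mul]; exact Submodule.zero_mem _
  | add a b _ _ ha hb => rw [add_mul]; exact Submodule.add_mem _ ha hb
  | smul r a _ ha => rw [smul_mul_assoc]; exact Submodule.smul_mem _ r ha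

lemma CI_left (hA : IsAlt B) (h2 : ∀ a : B, a + a = 0) (d a : B) (ha : a ∈ CI F B) :
    d * a ∈ CI F B := by
  have : d * a = a * d + cm a d := by unfold cm; (rw [eq2 h2]; abel_nf; try simp only [two_zsmul2 h2, four_zsmul2 h2, three_zsmul2 h2,
    two_nsmul2 h2, add_zero, zero_add])
  rw [this]
  exact Submodule.add_mem _ (CI_right hA h2 d a ha) (cm_mem _ _)

lemma CI_T (hA : IsAlt B) (h2 : ∀ a : B, a + a = 0) : TIdeal F B (CI F B) := by
  refine ⟨fun a ha b => ⟨CI_right hA h2 b a ha, CI_left hA h2 b a ha⟩, fun Φ a ha => ?_⟩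
  induction ha using Submodule.span_induction with
  | mem a ha =>
    rcases ha with ⟨b, c, rfl⟩ | ⟨b, c, e, rfl⟩
    · rw [cm_map]; exact cm_mem _ _
    · rw [map_mul, cm_map]; exact cm_mul_mem _ _ _
  | zero => rw [map_zero]; exact Submodule.zero_mem _
  | add a b _ _ ha hb => rw [map_add]; exact Submodule.add_mem _ ha hb
  | smul r a _ ha => rw [map_smul]; exact Submodule.smul_mem _ r ha

lemma CI_ne_bot (hR : Rules2 B) : CI F B ≠ ⊥ := by
  intro hb
  have h0 : ∀ g : B, g = 0 := by
    intro g
    refine hR.cen g fun y => ?_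
    have := cm_mem (F := F) g y
    rw [hb, Submodule.mem_bot] at this
    exact this
  obtain ⟨a, b, c, habc⟩ := hR.nonassoc
  exact habc (h0 _)

/-- LEMMA Q for linear conditions on the ideal of commutators: if `f u = 0` for all `u` in the
ideal of commutators, then `f u = 0` for all `u` (`f` a natural function). -/
theorem lemQ_CI (h : MaxAlg F S B x) (hR : Rules2 B)
    (f : B → B → B → B → B → B)
    (hf : ∀ (Φ : B →ₙₐ[F] B) a b c d e, Φ (f a b c d e) = f (Φ a) (Φ b) (Φ c) (Φ d) (Φ e))
    (h0 : ∀ u ∈ CI F B, ∀ b c d e, f u b c d e = 0) (a b c d e : B) : f a b c d e = 0 := by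
  have h1 : f (x 0) (x 1) (x 2) (x 3) (x 4) = 0 := by
    refine h.lemQI (CI F B) (CI_T h.alt hR.two) (CI_ne_bot hR) _ fun Φ hΦ => ?_
    rw [hf]
    exact h0 _ (hΦ 0) _ _ _ _
  obtain ⟨Φ, hΦ⟩ := h.rel.ext fun i => if i = 0 then a else if i = 1 then b else if i = 2 then c
    else if i = 3 then d else e
  have := congrArg Φ h1
  rw [hf, hΦ, hΦ, hΦ, hΦ, hΦ, map_zero] at this
  simpa using this

/-- QSTEP -/
theorem qstep (h : MaxAlg F S B x) (hR : Rules2 B)
    (h1 : ∀ a b c d e f : B, hh (cm a b) (cm c d) (cm e f) = 0)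
    (h2 : ∀ a b g c d e f : B, hh (cm a b * g) (cm c d) (cm e f) = 0) (u c d e f : B) :
    hh u (cm c d) (cm e f) = 0 := by
  refine lemQ_CI h hR (fun u c d e f => hh u (cm c d) (cm e f)) ?_ ?_ u c d e f
  · intro Φ a b c d e
    rw [hh_map, cm_map, cm_map]
  · intro u hu b c d e
    induction hu using Submodule.span_induction with
    | mem a ha =>
      rcases ha with ⟨b', c', rfl⟩ | ⟨b', c', e', rfl⟩
      · exact h1 _ _ _ _ _ _
      · exact h2 _ _ _ _ _ _ _
    | zero =>
      have := hh_smul_left (0 : F) (0 : B) (cm b c) (cm d e)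
      rwa [zero_smul, zero_smul] at this
    | add a a' _ _ ha hb => rw [hh_add_left, ha, hb, add_zero]
    | smul r a _ ha => rw [hh_smul_left, ha, smul_zero]

end

end H50

end Pool.Agent.TP
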