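import Pool.Agent.Helper52_TP.Fin2

/-!
# MP_ce3ba7_al, characteristic 2: short chain (helper50)

Statements of the remaining modules and the assembly of `Chain2a` and `Chain2b`.
-/

set_option autoImplicit false
set_option linter.unusedSectionVars false
set_option linter.unusedVariables false
set_option linter.unusedSimpArgs false

namespace Pool.Agent.TP

namespace H50

open H51 H52

section
variable {B : Type} [NonUnitalNonAssocRing B]

/-- `W(a,b,c,d)` -/
def WW (a b c d : B) : B := cm (cm a b) (cm c d) + cm (cm a c) (cm b d) + cm (cm a d) (cm b c)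

/-- `k_u(a,b,c,d)` -/
def kk (u a b c d : B) : B := hh u (cm a b) (cm c d) + hh u (cm a c) (cm b d) +
  hh u (cm a d) (cm b c)

end

/-- MODULE RS: rule S -/
def RuleS : Prop := ∀ (B : Type) [NonUnitalNonAssocRing B], Rules2 B →
  ∀ s : B, (∀ a b : B, cm s (cm a b) = 0) → s = 0

/-- MODULE C1: `W = 0` (rule NX and rule S) -/
def WStmt : Prop := ∀ (B : Type) [NonUnitalNonAssocRing B], Rules2 B → ∀ a b c d : B,
  WW a b c d = 0

/-- MODULE C2 (certificate of degree 7): modulo `W`, the elements `k_[e,f]` are central -/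
def C2Stmt : Prop := ∀ (B : Type) [NonUnitalNonAssocRing B], IsAlt B → (∀ x : B, x + x = 0) →
  (∀ a b c d : B, WW a b c d = 0) →
  ∀ a b c d e f g : B, cm (kk (cm e f) a b c d) g = 0

/-- MODULE C4 (certificate of degree 7): modulo `W` and `k`, the elements
`h([a,b],[c,d],[e,f])` are central -/
def C4Stmt : Prop := ∀ (B : Type) [NonUnitalNonAssocRing B], IsAlt B → (∀ x : B, x + x = 0) →
  (∀ a b c d : B, WW a b c d = 0) → (∀ u a b c d : B, kk u a b c d = 0) →
  ∀ a b c d e f g : B, cm (hh (cm a b) (cm c d) (cm e f)) g = 0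

/-- MODULE C5 (certificate of degree 7): modulo `W`, `k` and `h([a,b],[c,d],[e,f])` -/
def C5Stmt : Prop := ∀ (B : Type) [NonUnitalNonAssocRing B], IsAlt B → (∀ x : B, x + x = 0) →
  (∀ a b c d : B, WW a b c d = 0) → (∀ u a b c d : B, kk u a b c d = 0) →
  (∀ a b c d e f : B, hh (cm a b) (cm c d) (cm e f) = 0) →
  ∀ a b g c d e f : B, hh (cm a b * g) (cm c d) (cm e f) = 0

section
variable {B : Type} [NonUnitalNonAssocRing B]

theorem jac2 (hA : IsAlt B) (h2 : ∀ x : B, x + x = 0) (a b c : B) :
    cm a (cm b c) + cm b (cm c a) + cm c (cm a b) = 0 := by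
  have e1 := cm_mul hA h2 a b c
  have e2 := cm_mul hA h2 b a c
  have e3 : asc b a c = asc a b c := (t12 hA h2 a b c).symm
  rw [e3] at e2
  have e4 : cm (cm a b) c = cm a (cm b c) + cm b (cm a c) := by
    have : cm (cm a b) c = cm (a * b) c + cm (b * a) c := by
      rw [show cm a b = a * b + b * a from rfl, cm_add_left]
    rw [this, e1, e2]
    unfold cm
    (rw [eq2 h2]; abel_nf; try simp only [two_zsmul2 h2, four_zsmul2 h2, three_zsmul2 h2,
      two_nsmul2 h2, add_zero, zero_add])
  rw [cm_comm c (cm a b), e4, cm_comm a c]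
  (abel_nf; try simp only [two_zsmul2 h2, four_zsmul2 h2, three_zsmul2 h2,
      two_nsmul2 h2, add_zero, zero_add])

/-- formula (F) -/
theorem hh_F (hA : IsAlt B) (h2 : ∀ x : B, x + x = 0) (a b c d : B) :
    cm (hh a b c) d = hh a (cm b c) d + hh b (cm a c) d + hh c (cm a b) d + WW a b c d := by
  have key : ∀ x y z : B, cm (x * cm y z) d = x * cm (cm y z) d + cm x d * cm y z +
      (cm z (asc y x d) + cm y (asc z x d)) := by
    intro x y z
    rw [cm_mul hA h2, t12 hA h2 x (cm y z) d, asc_cm hA h2]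
  unfold hh WW
  rw [cm_add_left, cm_add_left, key, key, key]
  have j := jac2 hA h2 a b c
  rw [cm_comm c a] at j
  have j' : d * cm a (cm b c) + d * cm b (cm a c) + d * cm c (cm a b) = 0 := by
    rw [← mul_add, ← mul_add, j, mul_zero]
  have t1 : asc b a d = asc a b d := (t12 hA h2 a b d).symm
  have t2 : asc c a d = asc a c d := (t12 hA h2 a c d).symm
  have t3 : asc c b d = asc b c d := (t12 hA h2 b c d).symm
  rw [t1, t2, t3]
  have w1 : cm (cm a b) (cm c d) = cm c d * cm a b + cm a b * cm c d := by unfold cm; abel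
  have w2 : cm (cm a c) (cm b d) = cm b d * cm a c + cm a c * cm b d := by unfold cm; abel
  have w3 : cm (cm a d) (cm b c) = cm a d * cm b c + cm b c * cm a d := by unfold cm; abel
  rw [w1, w2, w3]
  rw [eq2 h2, ← j', eq2 h2]
  (abel_nf; try simp only [two_zsmul2 h2, four_zsmul2 h2, three_zsmul2 h2,
      two_nsmul2 h2, add_zero, zero_add])

/-- two `W`-sums -/
theorem hh_add1 (a a' b c : B) : hh (a + a') b c = hh a b c + hh a' b c := hh_add_left a a' b c

theorem hh_add2 (a b b' c : B) : hh a (b + b') c = hh a b c + hh a b' c := by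
  rw [hh_swap, hh_add_left, hh_swap b, hh_swap b']

theorem hh_add3 (a b c c' : B) : hh a b (c + c') = hh a b c + hh a b c' := by
  rw [hh_swap', hh_add2, hh_swap' a c, hh_swap' a c']

theorem hh_zero2 (a c : B) : hh a 0 c = 0 := by
  unfold hh cm; simp

/-- formula (F) for the elements `k`: `[k_u(a,b,c,d),g]` is the sum of six values of `k_g` -/
theorem kk_F (hA : IsAlt B) (h2 : ∀ x : B, x + x = 0) (hW : ∀ a b c d : B, WW a b c d = 0)
    (u a b c d g : B) :
    cm (kk u a b c d) g = kk g a b u (cm c d) + kk g c d u (cm a b) + kk g a c u (cm b d) +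
      kk g b d u (cm a c) + kk g a d u (cm b c) + kk g b c u (cm a d) := by
  have f : ∀ x y : B, cm (hh u x y) g = hh u (cm x y) g + hh x (cm u y) g + hh y (cm u x) g := by
    intro x y
    rw [hh_F hA h2, hW, add_zero]
  have e1 : cm (kk u a b c d) g = hh (cm a b) (cm u (cm c d)) g + hh (cm c d) (cm u (cm a b)) g +
      (hh (cm a c) (cm u (cm b d)) g + hh (cm b d) (cm u (cm a c)) g) +
      (hh (cm a d) (cm u (cm b c)) g + hh (cm b c) (cm u (cm a d)) g) := by
    unfold kk
    rw [cm_add_left, cm_add_left, f, f, f]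
    have w : hh u (cm (cm a b) (cm c d)) g + hh u (cm (cm a c) (cm b d)) g +
        hh u (cm (cm a d) (cm b c)) g = 0 := by
      rw [← hh_add2, ← hh_add2]
      have := hW a b c d
      unfold WW at this
      rw [this, hh_zero2]
    rw [eq2 h2, ← w, eq2 h2]
    (abel_nf; try simp only [two_zsmul2 h2, four_zsmul2 h2, three_zsmul2 h2,
      two_nsmul2 h2, add_zero, zero_add])
  -- Jacobi sums
  have jj : ∀ x y z w : B, hh g (cm u w) (cm x (cm y z)) + hh g (cm u w) (cm y (cm z x)) +
      hh g (cm u w) (cm z (cm x y)) = 0 := by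
    intro x y z w
    rw [← hh_add3, ← hh_add3, jac2 hA h2, hh_swap', hh_zero2]
  have ja := jj b c d a
  have jb := jj a c d b
  have jc := jj a b d c
  have jd := jj a b c d
  rw [e1]
  have s : ∀ x y : B, hh x y g = hh g x y := fun x y => by rw [hh_swap', hh_swap]
  simp only [s]
  unfold kk
  rw [cm_comm d b] at ja
  rw [cm_comm d a] at jb jc
  rw [cm_comm c a] at jd
  have k : ∀ x y : B, hh g x y = hh g y x := fun x y => hh_swap' g x y
  rw [k (cm a (cm c d)) (cm b u), k (cm c (cm a b)) (cm d u), k (cm a (cm b d)) (cm c u),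
    k (cm b (cm a c)) (cm d u), k (cm a (cm b c)) (cm d u), k (cm b (cm a d)) (cm c u)]
  rw [cm_comm a u, cm_comm b u, cm_comm c u, cm_comm d u]
  have tot := congrArg₂ (· + ·) (congrArg₂ (· + ·) ja jb) (congrArg₂ (· + ·) jc jd)
  simp only [add_zero] at tot
  rw [eq2 h2, ← tot, eq2 h2]
  (abel_nf; try simp only [two_zsmul2 h2, four_zsmul2 h2, three_zsmul2 h2,
      two_nsmul2 h2, add_zero, zero_add])

end

section
variable {B : Type} [NonUnitalNonAssocRing B]

/-- step (3): rule S gives `k = 0` -/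
theorem kk_zero (rs : RuleS) (hR : Rules2 B) (hW : ∀ a b c d : B, WW a b c d = 0)
    (hk : ∀ a b c d e f : B, kk (cm e f) a b c d = 0) (u a b c d : B) : kk u a b c d = 0 := by
  refine rs B hR _ fun p q => ?_
  rw [kk_F hR.alt hR.two hW]
  simp only [hk, add_zero]

end

/-- assembly of the first chain -/
theorem chain2a (rs : RuleS) (w : WStmt) (c2 : C2Stmt) (c4 : C4Stmt) (c5 : C5Stmt) : Chain2a := by
  intro B _ hR
  have hW := w B hR
  have h1 : ∀ a b c d e f : B, kk (cm e f) a b c d = 0 := by
    intro a b c d e f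
    exact hR.cen _ fun g => c2 B hR.alt hR.two hW a b c d e f g
  have hk := kk_zero rs hR hW h1
  have h3 : ∀ a b c d e f : B, hh (cm a b) (cm c d) (cm e f) = 0 := by
    intro a b c d e f
    exact hR.cen _ fun g => c4 B hR.alt hR.two hW hk a b c d e f g
  exact ⟨h3, fun a b g c d e f => c5 B hR.alt hR.two hW hk h3 a b g c d e f⟩

/-- assembly of the second chain -/
theorem chain2b (rs : RuleS) (w : WStmt) : Chain2b := by
  intro B _ hR hx a b c
  refine rs B hR _ fun d e => ?_
  rw [hh_F hR.alt hR.two, w B hR, hx, hx, hx]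
  simp only [add_zero]

/-- characteristic 2 from the five modules -/
theorem char2_of (rs : RuleS) (w : WStmt) (c2 : C2Stmt) (c4 : C4Stmt) (c5 : C5Stmt) :
    Char2Stmt := fin2 (chain2a rs w c2 c4 c5) (chain2b rs w)

end H50

end Pool.Agent.TP
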