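import Pool.Agent.Helper51_TP.Ann
import Pool.Agent.Helper59_TP3.PrimeQ

/-!
# MP_ce3ba7_al, characteristic 2: rules (helper50)

`cm a b = a b + b a`, `EE a b c = [[a,b],c] + (a,b,c)` is a derivation in `c`,
`hh a b c = a[b,c] + b[a,c] + c[a,b]`. Structure `Rules2`: the rules N, C, A, NX for the maximal
algebra of helper59 in characteristic 2. `qstep`: Lemma Q with `I` the ideal of commutators.
-/

set_option autoImplicit false
set_option linter.unusedSectionVars false
set_option linter.unusedVariables false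

namespace Pool.Agent.TP

namespace H50

open H51

section alg
variable {B : Type} [NonUnitalNonAssocRing B]

/-- commutator in characteristic 2 -/
def cm (a b : B) : B := a * b + b * a

/-- the derivation `E_{a,b}` -/
def EE (a b c : B) : B := cm (cm a b) c + asc a b c

/-- the totally symmetric function `h` -/
def hh (a b c : B) : B := a * cm b c + b * cm a c + c * cm a b

section two
variable (h2 : ∀ x : B, x + x = 0)
include h2

lemma neg2 (a : B) : -a = a := (eq_neg_of_add_eq_zero_left (h2 a)).symm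

lemma sub2 (a b : B) : a - b = a + b := by rw [sub_eq_add_neg, neg2 h2]

lemma eq2 {a b : B} : a = b ↔ a + b = 0 := by
  rw [← sub2 h2, sub_eq_zero]

lemma asc2 (a b c : B) : asc a b c = a * b * c + a * (b * c) := by
  unfold asc; rw [sub2 h2]

lemma two_nsmul2 (a : B) : 2 • a = 0 := by rw [two_nsmul, h2]

lemma two_zsmul2 (a : B) : (2 : ℤ) • a = 0 := by rw [two_zsmul, h2]

lemma four_zsmul2 (a : B) : (4 : ℤ) • a = 0 := by
  rw [show (4 : ℤ) = 2 * 2 by norm_num, mul_smul, two_zsmul2 h2]

lemma three_zsmul2 (a : B) : (3 : ℤ) • a = a := by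
  rw [show (3 : ℤ) = 2 + 1 by norm_num, add_smul, two_zsmul2 h2, zero_add, one_zsmul]

end two

lemma cm_comm (a b : B) : cm a b = cm b a := by unfold cm; abel

lemma cm_add_left (a b c : B) : cm (a + b) c = cm a c + cm b c := by
  unfold cm; simp only [add_mul, mul_add]; abel

lemma cm_add_right (a b c : B) : cm a (b + c) = cm a b + cm a c := by
  unfold cm; simp only [add_mul, mul_add]; abel

variable (hA : IsAlt B) (h2 : ∀ x : B, x + x = 0)
include hA h2

lemma t12 (x y z : B) : asc x y z = asc y x z := by rw [asc_s12 hA, neg2 h2]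

lemma t23 (x y z : B) : asc x y z = asc x z y := by rw [asc_s23 hA, neg2 h2]

omit h2 in
lemma tcyc (x y z : B) : asc x y z = asc y z x := asc_cyc hA x y z

lemma cm_mul (a b c : B) : cm (a * b) c = a * cm b c + cm a c * b + asc a b c := by
  have e1 : asc a c b = asc c a b := t12 hA h2 a c b
  have e2 : asc a b c = asc a c b := t23 hA h2 a b c
  rw [asc2 h2, asc2 h2] at e1
  have e3 : a * c * b + a * (c * b) + (c * a * b + c * (a * b)) = 0 := by rw [e1, h2]
  rw [asc2 h2]
  refine (add_zero (cm (a * b) c)).symm.trans ?_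
  rw [← e3]
  unfold cm
  simp only [mul_add, add_mul]
  (rw [eq2 h2]; abel_nf; try simp only [two_zsmul2 h2, four_zsmul2 h2, three_zsmul2 h2,
    two_nsmul2 h2, add_zero, zero_add])

lemma cm_mul' (a b c : B) : cm c (a * b) = a * cm c b + cm c a * b + asc a b c := by
  rw [cm_comm, cm_mul hA h2, cm_comm b c, cm_comm a c]

/-- the Kleinfeld function in characteristic 2 -/
lemma kf_def2 (w x y z : B) : kf w x y z = asc (w * x) y z + x * asc w y z + asc x y z * w := by
  unfold kf; rw [sub2 h2, sub2 h2]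

lemma kf12 (w x y z : B) : kf w x y z = kf x w y z := by rw [kf_s12 hA, neg2 h2]

lemma kf_sum (w x y z : B) : kf w x y z = cm w (asc x y z) + cm x (asc y z w) +
    cm y (asc z w x) + cm z (asc w x y) := by
  have h := kf_three hA w x y z
  have e : 3 • kf w x y z = kf w x y z := by
    rw [show (3 : ℕ) = 2 + 1 from rfl, add_nsmul, two_nsmul2 h2, zero_add, one_nsmul]
  rw [← e, h]
  unfold kh cm
  simp only [sub2 h2]

/-- `([w,x],y,z) = [x,(w,y,z)] + [w,(x,y,z)]` -/
lemma asc_cm (w x y z : B) : asc (cm w x) y z = cm x (asc w y z) + cm w (asc x y z) := by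
  have h := kf12 hA h2 w x y z
  rw [kf_def2 hA h2, kf_def2 hA h2 x w] at h
  rw [eq2 h2] at h ⊢
  rw [← h]
  unfold cm
  rw [asc_add1]
  abel

/-- `([w,x],y,z) = f(w,x,y,z) + [y,(w,x,z)] + [z,(w,x,y)]` -/
lemma asc_cm' (w x y z : B) : asc (cm w x) y z = kf w x y z + cm y (asc w x z) +
    cm z (asc w x y) := by
  rw [asc_cm hA h2, kf_sum hA h2, ← tcyc hA w y z, tcyc hA z w x]
  (rw [eq2 h2]; abel_nf; try simp only [two_zsmul2 h2, four_zsmul2 h2, three_zsmul2 h2,
    two_nsmul2 h2, add_zero, zero_add])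

/-- `E_{a,b}` is a derivation -/
lemma EE_mul (a b c d : B) : EE a b (c * d) = EE a b c * d + c * EE a b d := by
  have e1 := cm_mul' hA h2 c d (cm a b)
  have e2 : asc a b (c * d) = asc (c * d) a b := (tcyc hA (c * d) a b).symm
  have e3 := kf_def2 hA h2 c d a b
  have e4 := kf_sum hA h2 c d a b
  have e5 := asc_cm hA h2 a b c d
  have e6 : asc c d (cm a b) = asc (cm a b) c d := (tcyc hA (cm a b) c d).symm
  rw [e6, e5] at e1
  rw [e4] at e3
  have f1 : asc d a b = asc a b d := tcyc hA d a b
  have f2 : asc c a b = asc a b c := tcyc hA c a b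
  have f3 : asc a b c = asc b c a := tcyc hA a b c
  have f4 : asc a c d = asc c d a := tcyc hA a c d
  have f5 : asc b c d = asc b c d := rfl
  have f6 : asc b c d = asc c d b := tcyc hA b c d
  unfold EE
  rw [e1, e2]
  rw [f1, f2] at e3
  rw [show asc d a b = asc a b d from f1, show asc a b c = asc a b c from rfl] at *
  rw [eq2 h2] at e3 ⊢
  rw [← e3]
  rw [f4, f6]
  simp only [cm, add_mul, mul_add]
  (rw [eq2 h2]; abel_nf; try simp only [two_zsmul2 h2, four_zsmul2 h2, three_zsmul2 h2,
    two_nsmul2 h2, add_zero, zero_add])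

omit hA h2 in
lemma asc_zero2 (y z : B) : asc y 0 z = 0 := by unfold asc; simp

omit hA h2 in
lemma asc_zero3 (y z : B) : asc y z 0 = 0 := by unfold asc; simp

omit hA h2 in
lemma cm_zero_right (y : B) : cm y 0 = 0 := by unfold cm; simp

omit hA h2 in
lemma cm_zero_left (y : B) : cm 0 y = 0 := by unfold cm; simp

/-- formula behind the rule NX -/
lemma nx_formula (l : List (B × B)) (y z : B) :
    asc (l.map fun p => cm p.1 p.2).sum y z = (l.map fun p => asc p.1 p.2 (y * z)).sum +
      z * (l.map fun p => asc p.1 p.2 y).sum + (l.map fun p => asc p.1 p.2 z).sum * y +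
      cm y (l.map fun p => asc p.1 p.2 z).sum + cm z (l.map fun p => asc p.1 p.2 y).sum := by
  induction l with
  | nil => simp [asc_zero1, cm_zero_right]
  | cons p l ih =>
    simp only [List.map_cons, List.sum_cons]
    rw [asc_add1, ih, asc_cm' hA h2, ← kf_swap hA p.1 p.2 y z, kf_def2 hA h2]
    rw [cm_add_right, cm_add_right]
    simp only [mul_add, add_mul]
    have e1 : asc (y * z) p.1 p.2 = asc p.1 p.2 (y * z) := tcyc hA _ _ _
    have e2 : asc y p.1 p.2 = asc p.1 p.2 y := tcyc hA _ _ _
    have e3 : asc z p.1 p.2 = asc p.1 p.2 z := tcyc hA _ _ _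
    rw [e1, e2, e3]
    abel

end alg

/-- the closure rules in characteristic 2 -/
structure Rules2 (B : Type) [NonUnitalNonAssocRing B] : Prop where
  alt : IsAlt B
  two : ∀ x : B, x + x = 0
  /-- B is not associative -/
  nonassoc : ∃ x y z : B, asc x y z ≠ 0
  /-- zero nucleus -/
  nuc : ∀ g : B, (∀ y z, asc g y z = 0) → g = 0
  /-- zero commutative centre -/
  cen : ∀ g : B, (∀ y, cm g y = 0) → g = 0
  /-- nothing annihilates the associator ideal -/
  ann : ∀ g : B, (∀ x y z, g * asc x y z = 0) → (∀ x y z, asc x y z * g = 0) →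
    (∀ a x y z, g * (a * asc x y z) = 0) → g = 0
  /-- the rule NX of helper66 and helper78 -/
  nx : ∀ l : List (B × B), (∀ y, (l.map fun p => asc p.1 p.2 y).sum = 0) →
    (l.map fun p => cm p.1 p.2).sum = 0
  /-- one sided annihilators of B vanish -/
  right : ∀ g : B, (∀ y, g * y = 0) → g = 0
  left : ∀ g : B, (∀ y, y * g = 0) → g = 0

theorem Rules2.of_rules {B : Type} [NonUnitalNonAssocRing B] (hA : IsAlt B)
    (h2 : ∀ x : B, x + x = 0) (h : Rules B) : Rules2 B where
  alt := hA
  two := h2
  nonassoc := h.nonassoc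
  nuc := h.nuc
  cen := by
    intro g hg
    refine h.nuc g fun y z => ?_
    have e := cm_mul' hA h2 y z g
    rw [hg, hg, hg, mul_zero, zero_mul, zero_add, zero_add] at e
    rw [tcyc hA, e.symm]
  ann := h.ann
  nx := by
    intro l hl
    refine h.nuc _ fun y z => ?_
    rw [nx_formula hA h2, hl, hl, hl]
    simp [cm_zero_right]
  right := h.right
  left := h.left

section
variable {F : Type} [Field F] {S : Set (MonoidAlgebra F (FreeMagma ℕ))}
variable {B : Type} [NonUnitalNonAssocRing B] [Module F B] [IsScalarTower F B B]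
  [SMulCommClass F B B] {x : ℕ → B}

theorem MaxAlg_rules2 (h : MaxAlg F S B x) (hS : AssNil F S) (h2 : ∀ a : B, a + a = 0) :
    Rules2 B :=
  Rules2.of_rules h.alt h2 (rules F S hS B x h.rel h.alt h.sat h.prime h.nsol)

end

end H50

end Pool.Agent.TP
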